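import Pool.Agent.HEC.Stmts

/-!
# Squad HEC, row FLO: integral flow with capacity one
-/

set_option autoImplicit false

open Finset

namespace Pool.Agent.HEC.H33

open Classical in
/-- lower and upper capacity -/
noncomputable def cap {V : Type} (E : SimpleGraph V) (t : V → Bool) (g : V → ℤ) (c : ℤ) :
    Option V → Option V → ℤ
  | some u, some v => if E.Adj u v ∧ t u = true then c else 0
  | none, some v => g v
  | _, none => 0

theorem sum_ind {N : Type} [Fintype N] [DecidableEq N] (F : N → N → ℤ) (A B : Finset N) :
    ∑ a ∈ A, ∑ b ∈ B, F a b = ∑ a, ∑ b, if a ∈ A ∧ b ∈ B then F a b else 0 := by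
  rw [← Finset.sum_filter_add_sum_filter_not univ (fun a => a ∈ A)]
  have h1 : ∑ a ∈ univ.filter (fun a => ¬ a ∈ A), ∑ b, (if a ∈ A ∧ b ∈ B then F a b else 0) = 0 := by
    refine Finset.sum_eq_zero fun a ha => ?_
    rw [Finset.mem_filter] at ha
    refine Finset.sum_eq_zero fun b _ => ?_
    rw [if_neg fun h => ha.2 h.1]
  rw [h1, add_zero, Finset.filter_mem_eq_inter, Finset.univ_inter]
  refine Finset.sum_congr rfl fun a ha => ?_
  rw [← Finset.sum_filter_add_sum_filter_not univ (fun b => b ∈ B)]
  have h2 : ∑ b ∈ univ.filter (fun b => ¬ b ∈ B), (if a ∈ A ∧ b ∈ B then F a b else 0) = 0 := by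
    refine Finset.sum_eq_zero fun b hb => ?_
    rw [Finset.mem_filter] at hb
    rw [if_neg fun h => hb.2 h.2]
  rw [h2, add_zero, Finset.filter_mem_eq_inter, Finset.univ_inter]
  refine Finset.sum_congr rfl fun b hb => ?_
  rw [if_pos ⟨ha, hb⟩]

open Classical in
/-- part of the cut -/
noncomputable def al {V : Type} [Fintype V] (E : SimpleGraph V) (t : V → Bool) (A B : Finset V) : ℤ :=
  ∑ u, ∑ v, if (u ∈ A ∧ v ∈ B) ∧ (E.Adj u v ∧ t u = true) then 1 else 0

theorem cut_eq {V : Type} [Fintype V] [DecidableEq V] (E : SimpleGraph V) (t : V → Bool)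
    (ht : ∀ u v, E.Adj u v → t u ≠ t v) (W : Finset V) :
    (cut E W : ℤ) = al E t W Wᶜ + al E t Wᶜ W := by
  classical
  unfold cut cnt al
  rw [Finset.card_filter, Fintype.sum_prod_type]
  have key : ∀ F G : V → V → ℤ, (∑ u, ∑ v, F u v) + (∑ u, ∑ v, G u v)
      = ∑ u, ∑ v, (F u v + G v u) := by
    intro F G
    have h : (∑ u, ∑ v, G u v) = ∑ u, ∑ v, G v u := Finset.sum_comm
    rw [h, ← Finset.sum_add_distrib]
    exact Finset.sum_congr rfl fun u _ => Finset.sum_add_distrib.symm
  rw [key]
  push_cast
  refine Finset.sum_congr rfl fun u _ => ?_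
  refine Finset.sum_congr rfl fun v _ => ?_
  simp only [Finset.mem_compl]
  by_cases h1 : u ∈ W
  · by_cases h2 : v ∈ W
    · simp [h1, h2]
    · by_cases h3 : E.Adj u v
      · have h4 := ht u v h3
        have h5 := h3.symm
        rcases hu : t u with _ | _ <;> rcases hv : t v with _ | _ <;>
          simp_all
      · have h5 : ¬ E.Adj v u := fun h => h3 h.symm
        simp [h1, h2, h3, h5]
  · simp [h1]

theorem flo : FloStmt := by
  intro V _ E t b ht hW
  classical
  set g : V → ℤ := fun v => sg (t v) * b v with hg
  have htot : ∑ v, g v = 0 := by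
    have h1 := hW univ
    have h2 : cut E univ = 0 := by
      unfold cut cnt
      simp
    rw [h2] at h1
    exact abs_nonpos_iff.1 (by simpa using h1)
  obtain ⟨f, hf, hcons⟩ := Pool.Agent.CG.H7.hoff (Option V) (cap E t g (-1)) (cap E t g 1)
    (by
      rintro (_ | u) (_ | v)
      · exact le_rfl
      · exact le_rfl
      · exact le_rfl
      · unfold cap
        simp only
        split_ifs <;> norm_num)
    (by
      intro U
      set W : Finset V := univ.filter (fun v => some v ∈ U) with hWd
      have hmem : ∀ v, some v ∈ U ↔ v ∈ W := by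
        intro v
        rw [hWd, Finset.mem_filter]
        simp
      have hWc : ∑ v ∈ Wᶜ, g v = - ∑ v ∈ W, g v := by
        have := Finset.sum_add_sum_compl W g
        rw [htot] at this
        linarith
      have hcut := cut_eq E t ht W
      have hb := hW W
      rw [hcut, abs_le] at hb
      have e1 : ∀ c : ℤ, ∀ A B : Finset V,
          (∑ u, ∑ v, if u ∈ A ∧ v ∈ B then cap E t g c (some u) (some v) else 0)
          = c * al E t A B := by
        intro c A B
        unfold al
        rw [Finset.mul_sum]
        refine Finset.sum_congr rfl fun u _ => ?_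
        rw [Finset.mul_sum]
        refine Finset.sum_congr rfl fun v _ => ?_
        unfold cap
        simp only
        by_cases h1 : u ∈ A ∧ v ∈ B
        · by_cases h2 : E.Adj u v ∧ t u = true
          · rw [if_pos h1, if_pos h2, if_pos ⟨h1, h2⟩, mul_one]
          · rw [if_pos h1, if_neg h2, if_neg (fun h => h2 h.2), mul_zero]
        · rw [if_neg h1, if_neg (fun h => h1 h.1), mul_zero]
      have e2 : ∀ A : Finset V, (∑ v, if v ∈ A then g v else 0) = ∑ v ∈ A, g v := by
        intro A
        rw [← Finset.sum_filter, Finset.filter_mem_eq_inter, Finset.univ_inter]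
      rw [sum_ind (cap E t g (-1)) U Uᶜ, sum_ind (cap E t g 1) Uᶜ U]
      simp only [Fintype.sum_option, Finset.mem_compl, hmem]
      have e3 : (∑ u, ∑ v, if u ∈ W ∧ ¬ v ∈ W then cap E t g (-1) (some u) (some v) else 0)
          = -1 * al E t W Wᶜ := by
        rw [← e1 (-1) W Wᶜ]
        simp only [Finset.mem_compl]
      have e4 : (∑ u, ∑ v, if ¬ u ∈ W ∧ v ∈ W then cap E t g 1 (some u) (some v) else 0)
          = 1 * al E t Wᶜ W := by
        rw [← e1 1 Wᶜ W]
        simp only [Finset.mem_compl]
      have e5 : ∀ c : ℤ, ∀ v, cap E t g c none (some v) = g v := fun _ _ => rfl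
      have e6 : ∀ c : ℤ, ∀ a, cap E t g c a none = 0 := by
        intro c a
        rcases a with _ | a <;> rfl
      have e7 : (∑ v, if ¬ v ∈ W then g v else 0) = ∑ v ∈ Wᶜ, g v := by
        rw [← e2 Wᶜ]
        simp only [Finset.mem_compl]
      by_cases hn : none ∈ U
      · simp only [hn, e5, e6, true_and, false_and, not_true_eq_false, and_false, if_false,
          ite_self, zero_add, add_zero, Finset.sum_const_zero, e3, e4, e7,
          hWc]
        have h3 : ∑ v ∈ W, sg (t v) * b v = ∑ v ∈ W, g v := rfl
        rw [h3] at hb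
        linarith [hb.1, hb.2]
      · simp only [hn, e5, e6, true_and, false_and, not_false_eq_true, and_true, if_false,
          ite_self, zero_add, add_zero, Finset.sum_const_zero, e3, e4, e2]
        have h3 : ∑ v ∈ W, sg (t v) * b v = ∑ v ∈ W, g v := rfl
        rw [h3] at hb
        linarith [hb.1, hb.2])
  have hz : ∀ u v, ¬ (E.Adj u v ∧ t u = true) → f (some u) (some v) = 0 := by
    intro u v h
    have := hf (some u) (some v)
    unfold cap at this
    simp only [if_neg h] at this
    omega
  have hn0 : ∀ a, f a none = 0 := by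
    intro a
    have := hf a none
    have e6 : ∀ c : ℤ, cap E t g c a none = 0 := by
      intro c
      rcases a with _ | a <;> rfl
    rw [e6, e6] at this
    omega
  have hng : ∀ v, f none (some v) = g v := by
    intro v
    have := hf none (some v)
    have e5 : ∀ c : ℤ, cap E t g c none (some v) = g v := fun _ => rfl
    rw [e5, e5] at this
    omega
  have hb1 : ∀ u v, -1 ≤ f (some u) (some v) ∧ f (some u) (some v) ≤ 1 := by
    intro u v
    have := hf (some u) (some v)
    unfold cap at this
    simp only at this
    split_ifs at this <;> omega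
  refine ⟨fun u v => f (some u) (some v) + f (some v) (some u), ⟨?_, ?_, ?_⟩, ?_⟩
  · intro u v
    exact add_comm _ _
  · intro u v h
    rw [hz u v (fun h' => h h'.1), hz v u (fun h' => h h'.1.symm), add_zero]
  · intro u v
    by_cases hu : t u = true
    · have h1 : f (some v) (some u) = 0 := by
        refine hz v u fun h => ?_
        exact ht v u h.1 (by rw [h.2, hu])
      rw [h1, add_zero]
      exact hb1 u v
    · rw [hz u v (fun h => hu h.2), zero_add]
      exact hb1 v u
  · intro v
    unfold bd
    rw [Finset.sum_add_distrib]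
    have hc := hcons (some v)
    rw [Fintype.sum_option, Fintype.sum_option, hn0, hng, zero_add] at hc
    by_cases hv : t v = true
    · have h1 : ∑ w, f (some w) (some v) = 0 := by
        refine Finset.sum_eq_zero fun w _ => hz w v fun h => ?_
        exact ht w v h.1 (by rw [h.2, hv])
      have h2 : g v = b v := by
        rw [hg]
        simp [sg, hv]
      rw [h1] at hc ⊢
      rw [add_zero] at hc ⊢
      rw [hc, h2]
    · have h1 : ∑ w, f (some v) (some w) = 0 :=
        Finset.sum_eq_zero fun w _ => hz v w fun h => hv h.2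
      have h2 : g v = - b v := by
        rw [hg]
        simp [sg, hv]
      rw [h1] at hc ⊢
      rw [zero_add]
      linarith

end Pool.Agent.HEC.H33
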